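import Pool.Agent.Lib_helper48.Final

set_option autoImplicit false

/-!
A Banach space `E`, real or complex, for which the algebra `F(E)` of approximable operators
is not the linear span of the products of two of its elements.

`E` is a space of Pisier type: it has cotype two, it contains the Hilbert space `ℓ₂`, and every
weakly two-summable family of vectors is, up to a constant, the family of the first order Walsh
coefficients of a bounded function on the cube. On such a space every approximable operator
is two-summing with constant at most a multiple of its norm. The Baire category theorem
and a dimension count on `ℓ₂` subspaces finish the proof.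
-/

namespace Pool.Agent.Results.MP_d957af_an.ApproxNotIdempotent

/-- The set `F(E)` of approximable operators: the operator norm closure, in the space of
bounded linear operators on `E`, of the set of the operators with finite dimensional range. -/
def approximable (𝕜 E : Type) [RCLike 𝕜] [NormedAddCommGroup E] [NormedSpace 𝕜 E] :
    Set (E →L[𝕜] E) :=
  closure {T : E →L[𝕜] E | FiniteDimensional 𝕜 (LinearMap.range (T : E →ₗ[𝕜] E))}

/-- For `𝕜` the real or the complex field there is a Banach space `E` over `𝕜` such that the
linear span of all products `A B` of two approximable operators is not the whole of `F(E)`. -/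
theorem result (𝕜 : Type) [RCLike 𝕜] :
    ∃ (E : Type) (_ : NormedAddCommGroup E) (_ : NormedSpace 𝕜 E) (_ : CompleteSpace E),
      ((Submodule.span 𝕜 {T : E →L[𝕜] E |
        ∃ A ∈ approximable 𝕜 E, ∃ B ∈ approximable 𝕜 E, T = A.comp B} :
          Submodule 𝕜 (E →L[𝕜] E)) : Set (E →L[𝕜] E)) ≠ approximable 𝕜 E := by
  obtain ⟨P, i1, i2, i3, hcot, hext, e, he⟩ := Pool.Agent.Lib_helper48.exists_space 𝕜
  exact ⟨P, i1, i2, i3, Pool.Agent.Lib_helper48.not_idempotent hcot hext e he⟩

end Pool.Agent.Results.MP_d957af_an.ApproxNotIdempotent
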